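import Pool.Agent.X233.VM.Fin

/-! Part `VM_TR1`: transfer from the projective line to `St ⊗ St`. -/

namespace Pool.Agent.X56.VM

open Pool.Agent.X233.VM OnePoint Matrix
open scoped TensorProduct
open Classical

universe u

theorem map_inj_aux {k : Type u} {V : Type*} [Field k] [AddCommGroup V] [Module k V]
    (S : Submodule k V) : Function.Injective (TensorProduct.map S.subtype S.subtype) := by
  obtain ⟨r, hr⟩ := S.subtype.exists_leftInverse_of_injective S.ker_subtype
  have h : (TensorProduct.map r r).comp (TensorProduct.map S.subtype S.subtype)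
      = LinearMap.id := by
    rw [← TensorProduct.map_comp, hr, TensorProduct.map_id]
  intro a b hab
  have := congrArg (TensorProduct.map r r) hab
  rw [← LinearMap.comp_apply, ← LinearMap.comp_apply, h] at this
  exact this

section
variable (p : ℕ) [Fact p.Prime]

/-- `gB ↦ g ∞` -/
noncomputable def io : Gp p ⧸ Bor p → OnePoint (Kp p) :=
  Quotient.lift (fun g : Gp p => (SpecialLinearGroup.toGL g) • (∞ : OnePoint (Kp p))) (by
    intro a b h
    have h' : a⁻¹ * b ∈ Bor p := QuotientGroup.leftRel_apply.mp h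
    have h1 : (SpecialLinearGroup.toGL (a⁻¹ * b)) • (∞ : OnePoint (Kp p)) = ∞ := by
      rw [smul_infty_eq_self_iff]
      exact h'
    have h2 : SpecialLinearGroup.toGL b = SpecialLinearGroup.toGL a *
        SpecialLinearGroup.toGL (a⁻¹ * b) := by
      rw [← map_mul, mul_inv_cancel_left]
    show SpecialLinearGroup.toGL a • (∞ : OnePoint (Kp p)) = SpecialLinearGroup.toGL b • ∞
    rw [h2, mul_smul, h1])

theorem io_mk (g : Gp p) : io p (QuotientGroup.mk g) = (SpecialLinearGroup.toGL g) • ∞ := rfl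

theorem io_smul (g : Gp p) (x : Gp p ⧸ Bor p) :
    io p (g • x) = (SpecialLinearGroup.toGL g) • io p x := by
  induction x using QuotientGroup.induction_on with
  | H z =>
    show io p (QuotientGroup.mk (g * z)) = _
    rw [io_mk, io_mk, map_mul, mul_smul]

theorem io_inj : Function.Injective (io p) := by
  intro x y h
  induction x using QuotientGroup.induction_on with
  | H a =>
    induction y using QuotientGroup.induction_on with
    | H b =>
      rw [io_mk, io_mk] at h
      rw [QuotientGroup.eq]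
      have h1 : (SpecialLinearGroup.toGL (a⁻¹ * b)) • (∞ : OnePoint (Kp p)) = ∞ := by
        rw [map_mul, mul_smul, ← h, ← mul_smul, ← map_mul, inv_mul_cancel, map_one, one_smul]
      rw [smul_infty_eq_self_iff] at h1
      exact h1

variable (k : Type u) [Field k]

/-- on the full tensor product -/
noncomputable def Th0 : Mtr p k ⊗[k] Mtr p k →ₗ[k] ((OnePoint (Kp p) × OnePoint (Kp p)) →₀ k) :=
  (Finsupp.lmapDomain k k (Prod.map (io p) (io p))).comp
    (finsuppTensorFinsupp' k (Gp p ⧸ Bor p) (Gp p ⧸ Bor p)).toLinearMap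

theorem Th0_single (x y : Gp p ⧸ Bor p) (a b : k) :
    Th0 p k (Finsupp.single x a ⊗ₜ[k] Finsupp.single y b)
      = Finsupp.single (io p x, io p y) (a * b) := by
  unfold Th0
  rw [LinearMap.comp_apply, LinearEquiv.coe_coe, finsuppTensorFinsupp'_single_tmul_single,
    Finsupp.lmapDomain_apply, Finsupp.mapDomain_single]
  rfl

theorem Th0_inj : Function.Injective (Th0 p k) := by
  unfold Th0
  rw [LinearMap.coe_comp]
  refine Function.Injective.comp ?_ (LinearEquiv.injective _)
  exact Finsupp.mapDomain_injective ((io_inj p).prodMap (io_inj p))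

theorem act_single (g : Gp p) (x : Gp p ⧸ Bor p) (a : k) :
    act p k g (Finsupp.single x a) = Finsupp.single (g • x) a := by
  unfold act
  rw [Finsupp.lmapDomain_apply, Finsupp.mapDomain_single]

theorem actT_single (g : GL (Fin 2) (Kp p)) (P Q : OnePoint (Kp p)) (a : k) :
    actT p k g (Finsupp.single (P, Q) a) = Finsupp.single (g • P, g • Q) a := by
  unfold actT
  rw [Finsupp.lmapDomain_apply, Finsupp.mapDomain_single]

theorem Th0_act (g : Gp p) (z : Mtr p k ⊗[k] Mtr p k) :
    Th0 p k (TensorProduct.map (act p k g) (act p k g) z)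
      = actT p k (SpecialLinearGroup.toGL g) (Th0 p k z) := by
  have : (Th0 p k).comp (TensorProduct.map (act p k g) (act p k g))
      = (actT p k (SpecialLinearGroup.toGL g)).comp (Th0 p k) := by
    apply TensorProduct.ext
    apply Finsupp.lhom_ext
    intro x a
    apply Finsupp.lhom_ext
    intro y b
    show Th0 p k (TensorProduct.map (act p k g) (act p k g)
        (Finsupp.single x a ⊗ₜ[k] Finsupp.single y b))
      = actT p k (SpecialLinearGroup.toGL g) (Th0 p k (Finsupp.single x a ⊗ₜ[k] Finsupp.single y b))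
    rw [TensorProduct.map_tmul, act_single, act_single, Th0_single, Th0_single, actT_single,
      io_smul, io_smul]
  exact LinearMap.congr_fun this z

/-- the map `Θ` -/
noncomputable def Th : St p k ⊗[k] St p k →ₗ[k] ((OnePoint (Kp p) × OnePoint (Kp p)) →₀ k) :=
  (Th0 p k).comp (TensorProduct.map (St p k).subtype (St p k).subtype)

theorem Th_inj : Function.Injective (Th p k) := by
  unfold Th
  rw [LinearMap.coe_comp]
  refine (Th0_inj p k).comp ?_
  exact map_inj_aux (St p k)

theorem Th_act2 (g : Gp p) (z : St p k ⊗[k] St p k) :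
    Th p k (act2 p k g z) = actT p k (SpecialLinearGroup.toGL g) (Th p k z) := by
  unfold Th act2
  rw [LinearMap.comp_apply, LinearMap.comp_apply, ← Th0_act]
  congr 1
  have : (TensorProduct.map (St p k).subtype (St p k).subtype).comp
      (TensorProduct.map (actSt p k g) (actSt p k g))
      = (TensorProduct.map (act p k g) (act p k g)).comp
        (TensorProduct.map (St p k).subtype (St p k).subtype) := by
    rw [← TensorProduct.map_comp, ← TensorProduct.map_comp]
    rfl
  exact LinearMap.congr_fun this z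

theorem io_eps (x : Kp p) : io p (eps p x • (QuotientGroup.mk (1 : Gp p))) = ∞ := by
  rw [io_smul, io_mk, map_one, one_smul, smul_infty_eq_self_iff]
  rfl

theorem io_eps_s (x : Kp p) :
    io p (eps p x • (sm p • (QuotientGroup.mk (1 : Gp p) : Gp p ⧸ Bor p))) = (x : OnePoint (Kp p)) := by
  rw [io_smul, io_smul, io_mk, map_one, one_smul, smul_infty_eq_ite]
  have h1 : (SpecialLinearGroup.toGL (sm p)) 1 0 = (-1 : Kp p) := rfl
  have h0 : (SpecialLinearGroup.toGL (sm p)) 0 0 = (0 : Kp p) := rfl
  rw [h1, h0, if_neg (by simp), zero_div, smul_some_eq_ite]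
  have g00 : (SpecialLinearGroup.toGL (eps p x)) 0 0 = (1 : Kp p) := rfl
  have g01 : (SpecialLinearGroup.toGL (eps p x)) 0 1 = x := rfl
  have g10 : (SpecialLinearGroup.toGL (eps p x)) 1 0 = (0 : Kp p) := rfl
  have g11 : (SpecialLinearGroup.toGL (eps p x)) 1 1 = (1 : Kp p) := rfl
  rw [g00, g01, g10, g11]
  simp

theorem ex_coe (x : Kp p) : ((ex p k x : St p k) : Mtr p k)
    = Finsupp.single (eps p x • (QuotientGroup.mk (1 : Gp p) : Gp p ⧸ Bor p)) 1
      - Finsupp.single (eps p x • (sm p • (QuotientGroup.mk (1 : Gp p) : Gp p ⧸ Bor p))) 1 := by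
  unfold ex eta oneTr
  show act p k (eps p x) _ = _
  rw [map_sub, act_single, act_single, act_single]

theorem Th_ex (x y : Kp p) : Th p k (ex p k x ⊗ₜ[k] ex p k y)
    = Finsupp.single ((∞ : OnePoint (Kp p)), (∞ : OnePoint (Kp p))) 1
      - Finsupp.single ((∞ : OnePoint (Kp p)), (y : OnePoint (Kp p))) 1
      - Finsupp.single ((x : OnePoint (Kp p)), (∞ : OnePoint (Kp p))) 1
      + Finsupp.single ((x : OnePoint (Kp p)), (y : OnePoint (Kp p))) 1 := by
  unfold Th
  rw [LinearMap.comp_apply, TensorProduct.map_tmul, Submodule.subtype_apply,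
    Submodule.subtype_apply, ex_coe, ex_coe, TensorProduct.sub_tmul, TensorProduct.tmul_sub,
    TensorProduct.tmul_sub, map_sub, map_sub, map_sub, Th0_single, Th0_single, Th0_single,
    Th0_single, io_eps, io_eps, io_eps_s, io_eps_s]
  simp only [mul_one]
  abel

theorem Th_rho (x y : Kp p) : Th p k (rho p k x y) = rt p k x y := by
  unfold rho rt
  rw [_root_.map_smul, map_add, _root_.map_smul, Th_ex, Th_ex]
  congr 1
  rw [neg_smul, one_smul]
  abel

theorem map_Vminus : (Vminus p k).map (Th p k) = Vt p k := by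
  unfold Vminus Vt
  rw [Submodule.map_span]
  congr 1
  ext z
  constructor
  · rintro ⟨w, ⟨x, y, hxy, rfl⟩, rfl⟩
    exact ⟨x, y, hxy, Th_rho p k x y⟩
  · rintro ⟨x, y, hxy, rfl⟩
    exact ⟨rho p k x y, ⟨x, y, hxy, rfl⟩, Th_rho p k x y⟩

/-- Every element of `GL_2` acts on the projective line as an element of `SL_2`. -/
theorem gl_eq (g : GL (Fin 2) (Kp p)) :
    ∃ h : Gp p, ∀ P : OnePoint (Kp p), g • P = (SpecialLinearGroup.toGL h) • P := by
  obtain ⟨c, hc⟩ := IsAlgClosed.exists_pow_nat_eq (g.det : Kp p) (n := 2) (by norm_num)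
  have hdet : (g : Matrix (Fin 2) (Fin 2) (Kp p)).det = c ^ 2 := by
    rw [hc]; rfl
  have hc0 : c ≠ 0 := by
    rintro rfl
    have : ((g.det : (Kp p)ˣ) : Kp p) = 0 := by rw [← hc]; ring
    exact (g.det).ne_zero this
  refine ⟨⟨c⁻¹ • (g : Matrix (Fin 2) (Fin 2) (Kp p)), ?_⟩, ?_⟩
  · rw [Matrix.det_smul, hdet, Fintype.card_fin]
    field_simp
  · intro P
    set h : Gp p := ⟨c⁻¹ • (g : Matrix (Fin 2) (Fin 2) (Kp p)), _⟩ with hh
    have he : ∀ i j, (SpecialLinearGroup.toGL h) i j = c⁻¹ * g i j := by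
      intro i j
      rfl
    have hci : c⁻¹ ≠ 0 := inv_ne_zero hc0
    cases P with
    | infty =>
      rw [smul_infty_eq_ite, smul_infty_eq_ite, he, he]
      by_cases h0 : g 1 0 = 0
      · rw [if_pos h0, if_pos (by rw [h0, mul_zero])]
      · rw [if_neg h0, if_neg (mul_ne_zero hci h0), mul_div_mul_left _ _ hci]
    | coe t =>
      rw [smul_some_eq_ite, smul_some_eq_ite, he, he, he, he]
      have e1 : c⁻¹ * g 1 0 * t + c⁻¹ * g 1 1 = c⁻¹ * (g 1 0 * t + g 1 1) := by ring
      have e2 : c⁻¹ * g 0 0 * t + c⁻¹ * g 0 1 = c⁻¹ * (g 0 0 * t + g 0 1) := by ring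
      rw [e1, e2]
      by_cases h0 : g 1 0 * t + g 1 1 = 0
      · rw [if_pos h0, if_pos (by rw [h0, mul_zero])]
      · rw [if_neg h0, if_neg (mul_ne_zero hci h0), mul_div_mul_left _ _ hci]

theorem actT_eq (g : GL (Fin 2) (Kp p)) : ∃ h : Gp p,
    actT p k g = actT p k (SpecialLinearGroup.toGL h) := by
  obtain ⟨h, hh⟩ := gl_eq p g
  refine ⟨h, ?_⟩
  apply Finsupp.lhom_ext
  rintro ⟨P, Q⟩ a
  rw [actT_single, actT_single, hh, hh]

theorem t_TR1 [CharZero k] (hM : S_MAIN p k) : Vminus p k ≠ ⊥ ∧
    ∀ W : Submodule k (St p k ⊗[k] St p k), W ≤ Vminus p k →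
      (∀ g : Gp p, ∀ z ∈ W, act2 p k g z ∈ W) → W = ⊥ ∨ W = Vminus p k := by
  constructor
  · intro hbot
    have h1 : rho p k 0 1 ∈ Vminus p k := Submodule.subset_span ⟨0, 1, zero_ne_one, rfl⟩
    rw [hbot, Submodule.mem_bot] at h1
    have h2 := Th_rho p k 0 1
    rw [h1, map_zero] at h2
    have h3 := congrArg (fun f : (OnePoint (Kp p) × OnePoint (Kp p)) →₀ k =>
      f (((0 : Kp p) : OnePoint (Kp p)), ((1 : Kp p) : OnePoint (Kp p)))) h2
    simp only [rt, Finsupp.coe_zero, Pi.zero_apply, Finsupp.smul_apply, Finsupp.sub_apply,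
      Finsupp.add_apply, Finsupp.single_apply, Prod.mk.injEq] at h3
    simp at h3
  · intro W hW hst
    have hle : W.map (Th p k) ≤ Vt p k := by
      rw [← map_Vminus]
      exact Submodule.map_mono hW
    have hst' : ∀ g : GL (Fin 2) (Kp p), ∀ z ∈ W.map (Th p k), actT p k g z ∈ W.map (Th p k) := by
      rintro g z ⟨w, hw, rfl⟩
      obtain ⟨h, hh⟩ := actT_eq p k g
      rw [hh, ← Th_act2]
      exact ⟨_, hst h w hw, rfl⟩
    have hinj := Submodule.map_injective_of_injective (Th_inj p k)
    rcases hM _ hle hst' with h | h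
    · left
      apply hinj
      rw [h, Submodule.map_bot]
    · right
      apply hinj
      rw [h, map_Vminus]

end

end Pool.Agent.X56.VM
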